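import Mathlib
import Pool.Agent.H306R2.SM.Defs

set_option autoImplicit false

/-!
Tasks T12a, T12b, T12c of the sixth moment project: averages of nonnegative multiplicative
functions by Rankin's method.
-/

namespace Pool.Agent.H99R2.SMT12

open Finset Filter Topology MeasureTheory Complex
open Pool.Agent.H306R2 Pool.Agent.H306R2.SM

/-! ### Euler product inequality -/

lemma euler_le (F : ℕ → ℝ) (hF0 : ∀ n, 0 ≤ F n) (h1 : F 1 = 1)
    (hmul : ∀ {m n : ℕ}, Nat.Coprime m n → F (m * n) = F m * F n)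
    (hsum : ∀ {p : ℕ}, p.Prime → Summable fun n : ℕ => F (p ^ n)) (N : ℕ) :
    ∑ h ∈ Icc 1 N, F h ≤ ∏ p ∈ (N + 1).primesBelow, ∑' n : ℕ, F (p ^ n) := by
  classical
  have hs := EulerProduct.summable_and_hasSum_smoothNumbers_prod_primesBelow_tsum h1 hmul
    (fun {p} hp => by
      have := hsum hp
      refine this.congr ?_
      intro n
      rw [Real.norm_eq_abs, abs_of_nonneg (hF0 _)]) (N + 1)
  have hmem : ∀ h ∈ Icc 1 N, h ∈ (N + 1).smoothNumbers := by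
    intro h hh
    rw [mem_Icc] at hh
    exact Nat.mem_smoothNumbers_of_lt (by omega) (by omega)
  have h2 : ∑ x ∈ (Icc 1 N).subtype (fun h => h ∈ (N + 1).smoothNumbers), F x = ∑ h ∈ Icc 1 N, F h :=
    Finset.sum_subtype_of_mem F hmem
  rw [← h2]
  exact sum_le_hasSum _ (fun i _ => hF0 _) hs.2

/-- the sum of `n ^ (-(1+s))` -/
lemma zeta_partial (s : ℝ) (hs : 0 < s) (N : ℕ) :
    ∑ n ∈ Icc 1 (N + 1), (n : ℝ) ^ (-(1 + s)) ≤ 1 + 1 / s * (1 - ((N + 1 : ℕ) : ℝ) ^ (-s)) := by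
  induction N with
  | zero => simp
  | succ N ih =>
    rw [Finset.sum_Icc_succ_top (by omega)]
    have hM : (0 : ℝ) < ((N + 1 : ℕ) : ℝ) := by positivity
    have hM1 : (0 : ℝ) < ((N + 1 + 1 : ℕ) : ℝ) := by positivity
    have key : ((N + 1 + 1 : ℕ) : ℝ) ^ (-(1 + s)) ≤
        1 / s * (((N + 1 : ℕ) : ℝ) ^ (-s) - ((N + 1 + 1 : ℕ) : ℝ) ^ (-s)) := by
      set y : ℝ := ((N + 1 + 1 : ℕ) : ℝ) with hy
      set z : ℝ := ((N + 1 : ℕ) : ℝ) with hz
      have hyz : z = y - 1 := by rw [hy, hz]; push_cast; ring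
      have hu : 1 + s * (1 / y) ≤ (z / y) ^ (-s) := by
        have h1 : Real.log (z / y) ≤ -(1 / y) := by
          have := Real.log_le_sub_one_of_pos (show 0 < z / y by positivity)
          have h2 : z / y - 1 = -(1 / y) := by rw [hyz]; field_simp; ring
          linarith
        rw [Real.rpow_def_of_pos (by positivity)]
        have h3 := Real.add_one_le_exp (Real.log (z / y) * (-s))
        have h4 : s * (1 / y) ≤ Real.log (z / y) * (-s) := by nlinarith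
        linarith
      rw [Real.div_rpow hM.le hM1.le] at hu
      have hyp : 0 < y ^ (-s) := by positivity
      rw [le_div_iff₀ hyp] at hu
      have h5 : y ^ (-(1 + s)) = y ^ (-s) * (1 / y) := by
        rw [show -(1 + s) = -s + (-1) by ring, Real.rpow_add hM1, Real.rpow_neg_one]
        ring
      rw [h5]
      rw [div_mul_eq_mul_div, one_mul, le_div_iff₀ hs]
      nlinarith
    calc _ ≤ (1 + 1 / s * (1 - ((N + 1 : ℕ) : ℝ) ^ (-s))) +
          1 / s * (((N + 1 : ℕ) : ℝ) ^ (-s) - ((N + 1 + 1 : ℕ) : ℝ) ^ (-s)) := add_le_add ih key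
      _ = _ := by ring

lemma zeta_tsum (s : ℝ) (hs : 0 < s) : ∑' n : ℕ, (n : ℝ) ^ (-(1 + s)) ≤ 1 + 1 / s := by
  have hsum : Summable fun n : ℕ => (n : ℝ) ^ (-(1 + s)) :=
    Real.summable_nat_rpow.2 (by linarith)
  apply hsum.tsum_le_of_sum_range_le
  intro M
  have h0 : ∀ n : ℕ, (0 : ℝ) ≤ (n : ℝ) ^ (-(1 + s)) := fun n => by positivity
  have h1 : ∑ n ∈ range M, (n : ℝ) ^ (-(1 + s)) ≤ ∑ n ∈ Icc 1 (M + 1), (n : ℝ) ^ (-(1 + s)) := by
    have h2 : ∑ n ∈ range M, (n : ℝ) ^ (-(1 + s)) = ∑ n ∈ (range M).filter (fun n => n ≠ 0),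
        (n : ℝ) ^ (-(1 + s)) := by
      rw [Finset.sum_filter]
      apply Finset.sum_congr rfl
      intro n _
      split_ifs with h
      · rfl
      · push Not at h
        rw [h, Nat.cast_zero, Real.zero_rpow (by linarith)]
    rw [h2]
    apply Finset.sum_le_sum_of_subset_of_nonneg
    · intro n hn
      rw [Finset.mem_filter, Finset.mem_range] at hn
      rw [Finset.mem_Icc]
      omega
    · intro n _ _; exact h0 n
  refine h1.trans ((zeta_partial s hs M).trans ?_)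
  have h3 : (0 : ℝ) ≤ ((M + 1 : ℕ) : ℝ) ^ (-s) := by positivity
  have h4 : 0 < 1 / s := by positivity
  nlinarith

/-- the sum over primes -/
lemma exp_prime_sum (s : ℝ) (hs : 0 < s) (N : ℕ) :
    Real.exp (∑ p ∈ N.primesBelow, (p : ℝ) ^ (-(1 + s))) ≤ 1 + 1 / s := by
  have hpr : ∀ p : ℕ, p.Prime → 0 < (p : ℝ) ^ (-(1 + s)) ∧ (p : ℝ) ^ (-(1 + s)) < 1 := by
    intro p hp
    have h2 : (1 : ℝ) < p := by exact_mod_cast hp.one_lt
    refine ⟨by positivity, ?_⟩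
    exact Real.rpow_lt_one_of_one_lt_of_neg h2 (by linarith)
  have hpow : ∀ p n : ℕ, ((p ^ n : ℕ) : ℝ) ^ (-(1 + s)) = ((p : ℝ) ^ (-(1 + s))) ^ n := by
    intro p n
    push_cast
    rw [← Real.rpow_natCast, ← Real.rpow_natCast, ← Real.rpow_mul (by positivity),
      ← Real.rpow_mul (by positivity)]
    congr 1; ring
  have hs1 := EulerProduct.summable_and_hasSum_smoothNumbers_prod_primesBelow_tsum
    (f := fun n : ℕ => (n : ℝ) ^ (-(1 + s))) (by simp)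
    (fun {m n} _ => by
      show ((m * n : ℕ) : ℝ) ^ (-(1 + s)) = _
      push_cast
      rw [Real.mul_rpow (by positivity) (by positivity)])
    (fun {p} hp => by
      obtain ⟨h1, h2⟩ := hpr p hp
      have := summable_geometric_of_lt_one h1.le h2
      refine this.congr ?_
      intro n
      rw [hpow, Real.norm_eq_abs, abs_of_nonneg (by positivity)]) N
  have hsum : Summable fun n : ℕ => (n : ℝ) ^ (-(1 + s)) :=
    Real.summable_nat_rpow.2 (by linarith)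
  have h3 : ∏ p ∈ N.primesBelow, ∑' n : ℕ, ((p ^ n : ℕ) : ℝ) ^ (-(1 + s)) ≤ 1 + 1 / s := by
    rw [← hs1.2.tsum_eq]
    refine (hsum.tsum_subtype_le _ (N.smoothNumbers) (fun n => by positivity)).trans ?_
    exact zeta_tsum s hs
  refine le_trans ?_ h3
  rw [Real.exp_sum]
  apply Finset.prod_le_prod
  · intro p _; exact (Real.exp_pos _).le
  · intro p hp
    have hp' := Nat.prime_of_mem_primesBelow hp
    obtain ⟨h1, h2⟩ := hpr p hp'
    simp_rw [hpow]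
    rw [tsum_geometric_of_lt_one h1.le h2]
    set t := (p : ℝ) ^ (-(1 + s))
    have h4 := Real.add_one_le_exp (-t)
    have h5 : 0 < 1 - t := by linarith
    rw [← inv_inv (Real.exp t), ← Real.exp_neg]
    apply inv_anti₀ h5
    linarith

/-- Rankin's method -/
theorem rankin_bound (g : ℕ → ℕ → ℝ) (hg : ∀ p a, 0 ≤ g p a) (K : ℕ) (C : ℝ) (hC : 0 ≤ C)
    (hloc : ∀ p : ℕ, p.Prime → ∀ s : ℝ, 0 < s → s ≤ 1 →
      Summable (fun a : ℕ => g p (a + 1) * (((p : ℝ) ^ (a + 1)) ^ (-(1 + s)))) ∧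
      ∑' a : ℕ, g p (a + 1) * (((p : ℝ) ^ (a + 1)) ^ (-(1 + s))) ≤
        K * (p : ℝ) ^ (-(1 + s)) + C * (p : ℝ) ^ (-(3 / 2 : ℝ))) :
    ∃ C' : ℝ, 0 < C' ∧ ∀ x : ℝ, 1 ≤ x →
      ∑ h ∈ Icc 1 ⌊x⌋₊, (h.factorization.prod g) / (h : ℝ) ≤ C' * (1 + Real.log x) ^ K := by
  set Z : ℝ := ∑' n : ℕ, (n : ℝ) ^ (-(3 / 2 : ℝ)) with hZ
  have hZsum : Summable fun n : ℕ => (n : ℝ) ^ (-(3 / 2 : ℝ)) :=
    Real.summable_nat_rpow.2 (by norm_num)
  refine ⟨Real.exp 1 * Real.exp (C * Z) * 2 ^ K, by positivity, ?_⟩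
  intro x hx
  have hlx : 0 ≤ Real.log x := Real.log_nonneg hx
  set s : ℝ := 1 / (1 + Real.log x) with hs
  have hs0 : 0 < s := by positivity
  have hs1 : s ≤ 1 := by
    rw [hs, div_le_one (by positivity)]; linarith
  set F : ℕ → ℝ := fun n => (n.factorization.prod g) * (n : ℝ) ^ (-(1 + s)) with hF
  have hprod0 : ∀ n : ℕ, 0 ≤ n.factorization.prod g := fun n =>
    Finset.prod_nonneg fun p _ => hg _ _
  have hF0 : ∀ n, 0 ≤ F n := fun n => mul_nonneg (hprod0 n) (by positivity)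
  have hF1 : F 1 = 1 := by simp [hF]
  have hFmul : ∀ {m n : ℕ}, Nat.Coprime m n → F (m * n) = F m * F n := by
    intro m n hmn
    simp only [hF]
    rw [Nat.factorization_mul_of_coprime hmn, Finsupp.prod_add_index_of_disjoint
      (by simpa using hmn.disjoint_primeFactors)]
    push_cast
    rw [Real.mul_rpow (by positivity) (by positivity)]
    ring
  have hFp : ∀ p : ℕ, p.Prime → ∀ a : ℕ, F (p ^ (a + 1)) =
      g p (a + 1) * (((p : ℝ) ^ (a + 1)) ^ (-(1 + s))) := by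
    intro p hp a
    simp only [hF]
    rw [hp.factorization_pow, Finsupp.prod, Finsupp.support_single_ne_zero p (by omega)]
    simp
  have hFsum : ∀ {p : ℕ}, p.Prime → Summable fun n : ℕ => F (p ^ n) := by
    intro p hp
    rw [← summable_nat_add_iff 1]
    refine (hloc p hp s hs0 hs1).1.congr ?_
    intro a
    rw [hFp p hp a]
  have hE := euler_le F hF0 hF1 hFmul hFsum ⌊x⌋₊
  have hR : ∑ h ∈ Icc 1 ⌊x⌋₊, (h.factorization.prod g) / (h : ℝ) ≤
      Real.exp 1 * ∑ h ∈ Icc 1 ⌊x⌋₊, F h := by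
    rw [Finset.mul_sum]
    apply Finset.sum_le_sum
    intro h hh
    rw [Finset.mem_Icc] at hh
    have hh0 : (0 : ℝ) < h := by exact_mod_cast hh.1
    have hhx : (h : ℝ) ≤ x := (Nat.le_floor_iff (by linarith)).1 hh.2
    have h1 : (h : ℝ) ^ s ≤ Real.exp 1 := by
      calc (h : ℝ) ^ s ≤ x ^ s := Real.rpow_le_rpow hh0.le hhx hs0.le
        _ = Real.exp (Real.log x * s) := by rw [Real.rpow_def_of_pos (by linarith)]
        _ ≤ Real.exp 1 := by
            apply Real.exp_le_exp.2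
            rw [hs, mul_one_div, div_le_one (by positivity)]; linarith
    simp only [hF]
    have h2 : 1 / (h : ℝ) = (h : ℝ) ^ s * (h : ℝ) ^ (-(1 + s)) := by
      rw [← Real.rpow_add hh0, show s + -(1 + s) = -1 by ring, Real.rpow_neg_one, one_div]
    calc (h.factorization.prod g) / (h : ℝ) = (h.factorization.prod g) * (1 / (h : ℝ)) := by ring
      _ = (h.factorization.prod g) * ((h : ℝ) ^ s * (h : ℝ) ^ (-(1 + s))) := by rw [h2]
      _ ≤ (h.factorization.prod g) * (Real.exp 1 * (h : ℝ) ^ (-(1 + s))) := by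
          gcongr
          exact hprod0 h
      _ = _ := by ring
  have hP : ∏ p ∈ (⌊x⌋₊ + 1).primesBelow, ∑' n : ℕ, F (p ^ n) ≤
      Real.exp (C * Z) * (2 ^ K * (1 + Real.log x) ^ K) := by
    have h1 : ∀ p ∈ (⌊x⌋₊ + 1).primesBelow, ∑' n : ℕ, F (p ^ n) ≤
        Real.exp (K * (p : ℝ) ^ (-(1 + s)) + C * (p : ℝ) ^ (-(3 / 2 : ℝ))) := by
      intro p hp
      have hp' := Nat.prime_of_mem_primesBelow hp
      rw [(hFsum hp').tsum_eq_zero_add, pow_zero, hF1]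
      have h2 : ∑' b : ℕ, F (p ^ (b + 1)) =
          ∑' a : ℕ, g p (a + 1) * (((p : ℝ) ^ (a + 1)) ^ (-(1 + s))) :=
        tsum_congr fun a => hFp p hp' a
      rw [h2]
      have h3 := (hloc p hp' s hs0 hs1).2
      have h4 := Real.add_one_le_exp
        (K * (p : ℝ) ^ (-(1 + s)) + C * (p : ℝ) ^ (-(3 / 2 : ℝ)))
      linarith
    refine (Finset.prod_le_prod (fun p _ => tsum_nonneg fun n => hF0 _) h1).trans ?_
    rw [← Real.exp_sum, Finset.sum_add_distrib, ← Finset.mul_sum, ← Finset.mul_sum, Real.exp_add]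
    have h5 : Real.exp (K * ∑ p ∈ (⌊x⌋₊ + 1).primesBelow, (p : ℝ) ^ (-(1 + s))) ≤
        2 ^ K * (1 + Real.log x) ^ K := by
      rw [Real.exp_nat_mul, ← mul_pow]
      apply pow_le_pow_left₀ (Real.exp_pos _).le
      refine (exp_prime_sum s hs0 _).trans ?_
      rw [hs, one_div_one_div]; linarith
    have h6 : Real.exp (C * ∑ p ∈ (⌊x⌋₊ + 1).primesBelow, (p : ℝ) ^ (-(3 / 2 : ℝ))) ≤
        Real.exp (C * Z) := by
      apply Real.exp_le_exp.2
      apply mul_le_mul_of_nonneg_left _ hC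
      exact hZsum.sum_le_tsum _ (fun n _ => by positivity)
    calc _ ≤ (2 ^ K * (1 + Real.log x) ^ K) * Real.exp (C * Z) :=
          mul_le_mul h5 h6 (Real.exp_pos _).le (by positivity)
      _ = _ := by ring
  calc _ ≤ Real.exp 1 * ∑ h ∈ Icc 1 ⌊x⌋₊, F h := hR
    _ ≤ Real.exp 1 * (Real.exp (C * Z) * (2 ^ K * (1 + Real.log x) ^ K)) := by
        gcongr
        exact hE.trans hP
    _ = _ := by ring

/-! ### local sums -/

lemma local_sum (u c : ℕ → ℝ) (D A0 A1 : ℝ) (hu : ∀ n, 0 ≤ u n)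
    (hcs : Summable c) (h0 : u 0 ≤ A0) (h1 : u 1 ≤ A1) (h2 : ∀ n, u (n + 2) ≤ D * c n) :
    Summable u ∧ ∑' n, u n ≤ A0 + A1 + D * ∑' n, c n := by
  have hs2 : Summable fun n => u (n + 2) :=
    Summable.of_nonneg_of_le (fun n => hu _) h2 (hcs.mul_left D)
  have hs : Summable u := (summable_nat_add_iff 2).1 hs2
  refine ⟨hs, ?_⟩
  rw [← hs.sum_add_tsum_nat_add 2]
  have h3 : ∑' n, u (n + 2) ≤ D * ∑' n, c n := by
    rw [← tsum_mul_left]
    exact hs2.tsum_le_tsum h2 (hcs.mul_left D)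
  rw [Finset.sum_range_succ, Finset.sum_range_one]
  linarith

lemma log_pow_le (p : ℕ) (hp : 1 ≤ p) :
    (1 + Real.log p) ^ 4 * ((p : ℝ) ^ 2)⁻¹ ≤ 6561 * (p : ℝ) ^ (-(3 / 2 : ℝ)) := by
  have hp1 : (1 : ℝ) ≤ p := by exact_mod_cast hp
  have hp0 : (0 : ℝ) < p := by linarith
  have h1 : Real.log p ≤ 8 * (p : ℝ) ^ (1 / 8 : ℝ) := by
    have := Real.log_le_rpow_div hp0.le (show (0 : ℝ) < 1 / 8 by norm_num)
    linarith
  have h2 : 1 ≤ (p : ℝ) ^ (1 / 8 : ℝ) := Real.one_le_rpow hp1 (by norm_num)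
  have h3 : 0 ≤ Real.log p := Real.log_nonneg hp1
  have h4 : (1 + Real.log p) ^ 4 ≤ (9 * (p : ℝ) ^ (1 / 8 : ℝ)) ^ 4 :=
    pow_le_pow_left₀ (by linarith) (by linarith) 4
  have h5 : (9 * (p : ℝ) ^ (1 / 8 : ℝ)) ^ 4 = 6561 * (p : ℝ) ^ (1 / 2 : ℝ) := by
    rw [mul_pow, ← Real.rpow_natCast ((p : ℝ) ^ (1 / 8 : ℝ)), ← Real.rpow_mul hp0.le]
    norm_num
  have h6 : ((p : ℝ) ^ 2)⁻¹ = (p : ℝ) ^ (-2 : ℝ) := by
    rw [Real.rpow_neg hp0.le]
    norm_cast
  calc (1 + Real.log p) ^ 4 * ((p : ℝ) ^ 2)⁻¹ ≤ (6561 * (p : ℝ) ^ (1 / 2 : ℝ)) * ((p : ℝ) ^ 2)⁻¹ := by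
        rw [← h5]
        exact mul_le_mul_of_nonneg_right h4 (by positivity)
    _ = 6561 * ((p : ℝ) ^ (1 / 2 : ℝ) * (p : ℝ) ^ (-2 : ℝ)) := by rw [h6]; ring
    _ = _ := by rw [← Real.rpow_add hp0]; norm_num

/-- the local weight of T12a -/
noncomputable def ga (p a : ℕ) : ℝ :=
  (1 + (a : ℝ) * (1 - 1 / (p : ℝ))) ^ 2 *
    (1 + (1 + Real.log p) ^ 2 * (if a = 1 then 1 / (p : ℝ) else (a : ℝ) ^ 2)) ^ 2

lemma ga_nonneg (p a : ℕ) : 0 ≤ ga p a := by unfold ga; positivity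

lemma psi_Em (h : ℕ) : psi h ^ 2 * Em h ^ 2 = h.factorization.prod ga := by
  unfold psi Em ga Finsupp.prod
  rw [← Finset.prod_pow, ← Finset.prod_pow, ← Finset.prod_mul_distrib]

lemma pow_rpow_le (p : ℕ) (hp : 1 ≤ p) (a : ℕ) (s : ℝ) (hs : 0 < s) :
    ((p : ℝ) ^ a) ^ (-(1 + s)) ≤ ((p : ℝ) ^ a)⁻¹ := by
  have hp1 : (1 : ℝ) ≤ p := by exact_mod_cast hp
  have h1 : 1 ≤ (p : ℝ) ^ a := one_le_pow₀ hp1
  rw [← Real.rpow_neg_one]
  exact Real.rpow_le_rpow_of_exponent_le h1 (by linarith)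

lemma local_a (p : ℕ) (hp : p.Prime) (s : ℝ) (hs : 0 < s) (hs1 : s ≤ 1) :
    Summable (fun a : ℕ => ga p (a + 1) * (((p : ℝ) ^ (a + 1)) ^ (-(1 + s)))) ∧
      ∑' a : ℕ, ga p (a + 1) * (((p : ℝ) ^ (a + 1)) ^ (-(1 + s))) ≤
        (4 : ℕ) * (p : ℝ) ^ (-(1 + s)) +
          (6561 * (12 + 1024 + 16 * ∑' n : ℕ, ((n : ℝ) + 3) ^ 6 * (1 / 2) ^ (n + 1))) *
            (p : ℝ) ^ (-(3 / 2 : ℝ)) := by
  have hp2 : (2 : ℝ) ≤ p := by exact_mod_cast hp.two_le
  have hp0 : (0 : ℝ) < p := by linarith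
  have hp1 : 1 ≤ p := hp.one_le
  set L : ℝ := 1 + Real.log p with hL
  have hL1 : 1 ≤ L := by
    rw [hL]
    have := Real.log_nonneg (show (1 : ℝ) ≤ p by linarith)
    linarith
  have hL2 : 1 ≤ L ^ 2 := one_le_pow₀ hL1
  have hL4 : L ^ 2 ≤ L ^ 4 := pow_le_pow_right₀ hL1 (by norm_num)
  have hinv1 : 1 / (p : ℝ) ≤ 1 := by
    rw [div_le_one hp0]; linarith
  have hinv0 : 0 < 1 / (p : ℝ) := by positivity
  have hX := log_pow_le p hp1
  rw [← hL] at hX
  set X : ℝ := L ^ 4 * ((p : ℝ) ^ 2)⁻¹ with hXdef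
  have hX0 : 0 ≤ X := by positivity
  set c : ℕ → ℝ := fun n => ((n : ℝ) + 3) ^ 6 * (1 / 2) ^ (n + 1) with hc
  have hcs : Summable c := by
    have h1 := summable_pow_mul_geometric_of_norm_lt_one 6 (r := (1 / 2 : ℝ))
      (by rw [Real.norm_eq_abs, abs_of_pos (by norm_num)]; norm_num)
    have h2 := ((summable_nat_add_iff 3).2 h1).mul_left 4
    refine h2.congr ?_
    intro n
    simp only [hc]
    push_cast
    rw [pow_add, pow_add]; ring
  -- general bound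
  have hgen : ∀ n : ℕ, ga p (n + 2) * (((p : ℝ) ^ (n + 2)) ^ (-(1 + s))) ≤
      16 * X * (((n : ℝ) + 2) ^ 6 * (1 / 2) ^ n) := by
    intro n
    have hn0 : (0 : ℝ) ≤ n := Nat.cast_nonneg n
    have h1 : ga p (n + 2) ≤ 16 * ((n : ℝ) + 2) ^ 6 * L ^ 4 := by
      unfold ga
      rw [if_neg (by omega), ← hL]
      push_cast
      have e1 : (1 + ((n : ℝ) + 2) * (1 - 1 / (p : ℝ))) ^ 2 ≤ (2 * ((n : ℝ) + 2)) ^ 2 := by
        apply pow_le_pow_left₀
        · have : 0 ≤ ((n : ℝ) + 2) * (1 - 1 / (p : ℝ)) :=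
            mul_nonneg (by linarith) (by linarith)
          linarith
        · nlinarith
      have e2 : (1 + L ^ 2 * ((n : ℝ) + 2) ^ 2) ^ 2 ≤ (2 * (L ^ 2 * ((n : ℝ) + 2) ^ 2)) ^ 2 := by
        apply pow_le_pow_left₀ (by positivity)
        have : 1 ≤ L ^ 2 * ((n : ℝ) + 2) ^ 2 := by nlinarith
        linarith
      calc _ ≤ (2 * ((n : ℝ) + 2)) ^ 2 * (2 * (L ^ 2 * ((n : ℝ) + 2) ^ 2)) ^ 2 :=
            mul_le_mul e1 e2 (by positivity) (by positivity)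
        _ = _ := by ring
    have h2 : ((p : ℝ) ^ (n + 2)) ^ (-(1 + s)) ≤ ((p : ℝ) ^ 2)⁻¹ * (1 / 2) ^ n := by
      refine (pow_rpow_le p hp1 (n + 2) s hs).trans ?_
      rw [pow_add, mul_inv, mul_comm]
      apply mul_le_mul_of_nonneg_left _ (by positivity)
      rw [one_div, inv_pow]
      apply inv_anti₀ (by positivity)
      exact pow_le_pow_left₀ (by norm_num) hp2 n
    calc _ ≤ (16 * ((n : ℝ) + 2) ^ 6 * L ^ 4) * (((p : ℝ) ^ 2)⁻¹ * (1 / 2) ^ n) :=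
          mul_le_mul h1 h2 (by positivity) (by positivity)
      _ = _ := by rw [hXdef]; ring
  have hmain := local_sum (fun a : ℕ => ga p (a + 1) * (((p : ℝ) ^ (a + 1)) ^ (-(1 + s)))) c
    (16 * X) (4 * (p : ℝ) ^ (-(1 + s)) + 12 * X) (1024 * X)
    (fun n => mul_nonneg (ga_nonneg _ _) (by positivity)) hcs ?_ ?_ ?_
  · refine ⟨hmain.1, hmain.2.trans ?_⟩
    have hcT : 0 ≤ ∑' n, c n := tsum_nonneg fun n => by simp only [hc]; positivity
    have e : 4 * (p : ℝ) ^ (-(1 + s)) + 12 * X + 1024 * X + 16 * X * ∑' n, c n =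
        4 * (p : ℝ) ^ (-(1 + s)) + (12 + 1024 + 16 * ∑' n, c n) * X := by ring
    rw [e]
    have e2 : (12 + 1024 + 16 * ∑' n, c n) * X ≤
        (12 + 1024 + 16 * ∑' n, c n) * (6561 * (p : ℝ) ^ (-(3 / 2 : ℝ))) :=
      mul_le_mul_of_nonneg_left hX (by positivity)
    push_cast
    linarith
  · -- a = 0
    simp only [zero_add, pow_one]
    have hga : ga p 1 ≤ 4 + 12 * L ^ 4 * (1 / (p : ℝ)) := by
      unfold ga
      rw [if_pos rfl, ← hL]
      push_cast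
      have e1 : (1 + 1 * (1 - 1 / (p : ℝ))) ^ 2 ≤ 4 := by nlinarith
      have e2 : (1 + L ^ 2 * (1 / (p : ℝ))) ^ 2 ≤ 1 + 3 * L ^ 4 * (1 / (p : ℝ)) := by
        have e3 : (1 / (p : ℝ)) ^ 2 ≤ 1 / (p : ℝ) := by nlinarith
        have e4 : L ^ 4 * (1 / (p : ℝ)) ^ 2 ≤ L ^ 4 * (1 / (p : ℝ)) :=
          mul_le_mul_of_nonneg_left e3 (by positivity)
        have e5 : L ^ 2 * (1 / (p : ℝ)) ≤ L ^ 4 * (1 / (p : ℝ)) :=
          mul_le_mul_of_nonneg_right hL4 hinv0.le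
        have e6 : (1 + L ^ 2 * (1 / (p : ℝ))) ^ 2 =
            1 + 2 * (L ^ 2 * (1 / (p : ℝ))) + L ^ 4 * (1 / (p : ℝ)) ^ 2 := by ring
        rw [e6]; linarith
      calc _ ≤ 4 * (1 + 3 * L ^ 4 * (1 / (p : ℝ))) := mul_le_mul e1 e2 (by positivity) (by norm_num)
        _ = _ := by ring
    have hrp : (p : ℝ) ^ (-(1 + s)) ≤ ((p : ℝ))⁻¹ := by
      have := pow_rpow_le p hp1 1 s hs
      simpa using this
    have hrp0 : 0 < (p : ℝ) ^ (-(1 + s)) := by positivity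
    calc ga p 1 * (p : ℝ) ^ (-(1 + s)) ≤ (4 + 12 * L ^ 4 * (1 / (p : ℝ))) * (p : ℝ) ^ (-(1 + s)) :=
          mul_le_mul_of_nonneg_right hga hrp0.le
      _ = 4 * (p : ℝ) ^ (-(1 + s)) + 12 * L ^ 4 * (1 / (p : ℝ)) * (p : ℝ) ^ (-(1 + s)) := by ring
      _ ≤ 4 * (p : ℝ) ^ (-(1 + s)) + 12 * L ^ 4 * (1 / (p : ℝ)) * ((p : ℝ))⁻¹ := by gcongr
      _ = 4 * (p : ℝ) ^ (-(1 + s)) + 12 * X := by rw [hXdef]; field_simp
  · have := hgen 0
    simp only [Nat.cast_zero, zero_add, pow_zero, mul_one] at this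
    calc _ ≤ 16 * X * 2 ^ 6 := this
      _ = 1024 * X := by ring
  · intro n
    have := hgen (n + 1)
    simp only [hc]
    push_cast at this
    rw [show (n : ℝ) + 1 + 2 = n + 3 by ring] at this
    exact this

/-- T12a -/
theorem sum_psi_Em : ∃ C : ℝ, 0 < C ∧ ∀ x : ℝ, 1 ≤ x →
    ∑ h ∈ Icc 1 ⌊x⌋₊, psi h ^ 2 * Em h ^ 2 / (h : ℝ) ≤ C * (1 + Real.log x) ^ 4 := by
  have hcT : 0 ≤ ∑' n : ℕ, ((n : ℝ) + 3) ^ 6 * (1 / 2) ^ (n + 1) :=
    tsum_nonneg fun n => by positivity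
  obtain ⟨C, hC, h⟩ := rankin_bound ga ga_nonneg 4 _ (by positivity) local_a
  refine ⟨C, hC, fun x hx => ?_⟩
  refine le_trans (le_of_eq ?_) (h x hx)
  apply Finset.sum_congr rfl
  intro m _
  rw [psi_Em]

/-- the local weight of T12b -/
noncomputable def gb (p a : ℕ) : ℝ := (if 2 ≤ a then (p : ℝ) ^ a else 1) ^ (1 / 2 : ℝ)

lemma gb_nonneg (p a : ℕ) : 0 ≤ gb p a := by
  unfold gb
  apply Real.rpow_nonneg
  split_ifs <;> positivity

lemma hq_rpow (h : ℕ) : hq h ^ (1 / 2 : ℝ) = h.factorization.prod gb := by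
  unfold hq gb Finsupp.prod
  rw [Real.finset_prod_rpow]
  intro i _
  split_ifs <;> positivity

lemma local_b (p : ℕ) (hp : p.Prime) (s : ℝ) (hs : 0 < s) (hs1 : s ≤ 1) :
    Summable (fun a : ℕ => gb p (a + 1) * (((p : ℝ) ^ (a + 1)) ^ (-(1 + s)))) ∧
      ∑' a : ℕ, gb p (a + 1) * (((p : ℝ) ^ (a + 1)) ^ (-(1 + s))) ≤
        (2 : ℕ) * (p : ℝ) ^ (-(1 + s)) +
          (∑' n : ℕ, ((2 : ℝ) ^ (-(1 / 2 : ℝ))) ^ n) * (p : ℝ) ^ (-(3 / 2 : ℝ)) := by
  have hp2 : (2 : ℝ) ≤ p := by exact_mod_cast hp.two_le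
  have hp0 : (0 : ℝ) < p := by linarith
  have hp1 : (1 : ℝ) ≤ p := by linarith
  have h2lt : (2 : ℝ) ^ (-(1 / 2 : ℝ)) < 1 :=
    Real.rpow_lt_one_of_one_lt_of_neg (by norm_num) (by norm_num)
  have h2pos : (0 : ℝ) < (2 : ℝ) ^ (-(1 / 2 : ℝ)) := by positivity
  have hcs : Summable fun n : ℕ => ((2 : ℝ) ^ (-(1 / 2 : ℝ))) ^ n :=
    summable_geometric_of_lt_one h2pos.le h2lt
  have hbig : ∀ n : ℕ, gb p (n + 2) * (((p : ℝ) ^ (n + 2)) ^ (-(1 + s))) =
      ((p : ℝ) ^ (n + 2)) ^ (-(1 / 2 + s)) := by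
    intro n
    unfold gb
    rw [if_pos (by omega), ← Real.rpow_add (by positivity)]
    congr 1; ring
  have hmain := local_sum (fun a : ℕ => gb p (a + 1) * (((p : ℝ) ^ (a + 1)) ^ (-(1 + s))))
    (fun n : ℕ => ((2 : ℝ) ^ (-(1 / 2 : ℝ))) ^ n) ((p : ℝ) ^ (-(3 / 2 : ℝ)))
    ((p : ℝ) ^ (-(1 + s))) ((p : ℝ) ^ (-(1 + s)))
    (fun n => mul_nonneg (gb_nonneg _ _) (by positivity)) hcs ?_ ?_ ?_
  · refine ⟨hmain.1, hmain.2.trans (le_of_eq ?_)⟩
    push_cast; ring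
  · simp only [zero_add, pow_one]
    unfold gb
    rw [if_neg (by omega), Real.one_rpow, one_mul]
  · have := hbig 0
    simp only [zero_add] at this
    show gb p (1 + 1) * (((p : ℝ) ^ (1 + 1)) ^ (-(1 + s))) ≤ _
    rw [this, ← Real.rpow_natCast (p : ℝ) 2, ← Real.rpow_mul hp0.le]
    apply Real.rpow_le_rpow_of_exponent_le hp1
    push_cast
    linarith
  · intro n
    have := hbig (n + 1)
    show gb p (n + 1 + 2) * (((p : ℝ) ^ (n + 1 + 2)) ^ (-(1 + s))) ≤ _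
    rw [this]
    calc ((p : ℝ) ^ (n + 1 + 2)) ^ (-(1 / 2 + s)) ≤ ((p : ℝ) ^ (n + 1 + 2)) ^ (-(1 / 2 : ℝ)) :=
          Real.rpow_le_rpow_of_exponent_le (one_le_pow₀ hp1) (by linarith)
      _ = (p : ℝ) ^ (-(3 / 2 : ℝ)) * ((p : ℝ) ^ (-(1 / 2 : ℝ))) ^ n := by
          rw [← Real.rpow_natCast, ← Real.rpow_mul hp0.le, ← Real.rpow_natCast,
            ← Real.rpow_mul hp0.le, ← Real.rpow_add hp0]
          congr 1; push_cast; ring
      _ ≤ _ := by
          apply mul_le_mul_of_nonneg_left _ (by positivity)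
          apply pow_le_pow_left₀ (by positivity)
          exact Real.rpow_le_rpow_of_nonpos (by norm_num) hp2 (by norm_num)

/-- T12b -/
theorem sum_hq : ∃ C : ℝ, 0 < C ∧ ∀ x : ℝ, 1 ≤ x →
    ∑ h ∈ Icc 1 ⌊x⌋₊, hq h ^ (1 / 2 : ℝ) / (h : ℝ) ≤ C * (1 + Real.log x) ^ 2 := by
  obtain ⟨C, hC, h⟩ := rankin_bound gb gb_nonneg 2 _
    (tsum_nonneg fun n => by positivity) local_b
  refine ⟨C, hC, fun x hx => ?_⟩
  refine le_trans (le_of_eq ?_) (h x hx)
  apply Finset.sum_congr rfl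
  intro m _
  rw [hq_rpow]

/-- T12c -/
theorem psi_le (ε : ℝ) (hε : 0 < ε) : ∃ C : ℝ, 0 < C ∧ ∀ h : ℕ, 1 ≤ h →
    psi h ≤ C * (h : ℝ) ^ ε := by
  have hlog2 : 0 < Real.log 2 := Real.log_pos (by norm_num)
  set B : ℝ := 1 + 1 / (ε * Real.log 2) with hB
  have hB1 : 1 ≤ B := by
    have : 0 < 1 / (ε * Real.log 2) := by positivity
    linarith
  have hBa : ∀ a : ℕ, (a : ℝ) + 1 ≤ B * ((2 : ℝ) ^ ε) ^ a := by
    intro a
    have h1 : 1 + (a : ℝ) * (ε * Real.log 2) ≤ ((2 : ℝ) ^ ε) ^ a := by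
      rw [← Real.rpow_natCast, ← Real.rpow_mul (by norm_num), Real.rpow_def_of_pos (by norm_num)]
      have := Real.add_one_le_exp (Real.log 2 * (ε * a))
      linarith
    have h2 : B * (ε * Real.log 2) = ε * Real.log 2 + 1 := by
      rw [hB]; field_simp
    have h3 : (0 : ℝ) ≤ a := Nat.cast_nonneg a
    have h4 : 0 < ε * Real.log 2 := by positivity
    calc (a : ℝ) + 1 ≤ B * (1 + (a : ℝ) * (ε * Real.log 2)) := by nlinarith
      _ ≤ _ := by gcongr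
  set M : ℕ := ⌈(2 : ℝ) ^ (1 / ε)⌉₊ with hM
  refine ⟨B ^ M, by positivity, ?_⟩
  intro h hh
  have hh0 : h ≠ 0 := by omega
  have hpow : (h : ℝ) ^ ε = ∏ p ∈ h.primeFactors, (((p : ℝ) ^ ε) ^ (h.factorization p)) := by
    conv_lhs => rw [← Nat.prod_factorization_pow_eq_self hh0]
    unfold Finsupp.prod
    push_cast
    rw [← Real.finset_prod_rpow]
    · apply Finset.prod_congr rfl
      intro p _
      rw [← Real.rpow_natCast, ← Real.rpow_mul (by positivity), ← Real.rpow_natCast,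
        ← Real.rpow_mul (by positivity)]
      congr 1; ring
    · intro p _; positivity
  have hfac : ∀ p ∈ h.primeFactors, 1 + (h.factorization p : ℝ) * (1 - 1 / (p : ℝ)) ≤
      (if p < M then B else 1) * ((p : ℝ) ^ ε) ^ (h.factorization p) := by
    intro p hp
    have hp2 : (2 : ℝ) ≤ p := by exact_mod_cast (Nat.prime_of_mem_primeFactors hp).two_le
    have hp0 : (0 : ℝ) < p := by linarith
    set a := h.factorization p with ha
    have h3 : (0 : ℝ) ≤ a := Nat.cast_nonneg a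
    have h1 : 1 + (a : ℝ) * (1 - 1 / (p : ℝ)) ≤ a + 1 := by
      have : 0 < 1 / (p : ℝ) := by positivity
      nlinarith
    split_ifs with hpM
    · refine h1.trans ((hBa a).trans ?_)
      apply mul_le_mul_of_nonneg_left _ (by linarith)
      apply pow_le_pow_left₀ (by positivity)
      exact Real.rpow_le_rpow (by norm_num) hp2 hε.le
    · rw [one_mul]
      refine h1.trans ?_
      have h4 : (2 : ℝ) ≤ (p : ℝ) ^ ε := by
        have h5 : (2 : ℝ) ^ (1 / ε) ≤ p := by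
          push Not at hpM
          exact (Nat.le_ceil _).trans (by exact_mod_cast hpM)
        calc (2 : ℝ) = ((2 : ℝ) ^ (1 / ε)) ^ ε := by
              rw [← Real.rpow_mul (by norm_num)]
              rw [one_div_mul_cancel hε.ne', Real.rpow_one]
          _ ≤ (p : ℝ) ^ ε := Real.rpow_le_rpow (by positivity) h5 hε.le
      calc (a : ℝ) + 1 ≤ (2 : ℝ) ^ a := by
            have : a + 1 ≤ 2 ^ a := Nat.lt_two_pow_self
            exact_mod_cast this
        _ ≤ _ := pow_le_pow_left₀ (by norm_num) h4 a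
  unfold psi Finsupp.prod
  rw [hpow]
  calc ∏ p ∈ h.factorization.support, (1 + (h.factorization p : ℝ) * (1 - 1 / (p : ℝ)))
      ≤ ∏ p ∈ h.primeFactors, ((if p < M then B else 1) * ((p : ℝ) ^ ε) ^ (h.factorization p)) := by
        apply Finset.prod_le_prod
        · intro p hp
          have hp' : p ∈ h.primeFactors := hp
          have hp2 : (2 : ℝ) ≤ p := by exact_mod_cast (Nat.prime_of_mem_primeFactors hp').two_le
          have : 1 / (p : ℝ) ≤ 1 := by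
            rw [div_le_one (by linarith)]; linarith
          have : 0 ≤ (h.factorization p : ℝ) * (1 - 1 / (p : ℝ)) :=
            mul_nonneg (Nat.cast_nonneg _) (by linarith)
          linarith
        · intro p hp
          exact hfac p hp
    _ = (∏ p ∈ h.primeFactors, (if p < M then B else 1)) *
          ∏ p ∈ h.primeFactors, ((p : ℝ) ^ ε) ^ (h.factorization p) := Finset.prod_mul_distrib
    _ ≤ B ^ M * ∏ p ∈ h.primeFactors, ((p : ℝ) ^ ε) ^ (h.factorization p) := by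
        apply mul_le_mul_of_nonneg_right _ (Finset.prod_nonneg fun p _ => by positivity)
        rw [Finset.prod_ite, Finset.prod_const, Finset.prod_const_one, mul_one]
        apply pow_le_pow_right₀ hB1
        calc (h.primeFactors.filter (fun p => p < M)).card ≤ (range M).card :=
              Finset.card_le_card (fun p hp => Finset.mem_range.2 (Finset.mem_filter.1 hp).2)
          _ = M := Finset.card_range M

end Pool.Agent.H99R2.SMT12
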